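import Pool.Agent.Lib.MP_425be5_nt_X.Iff

namespace Pool.Agent.Results.MP_425be5_nt.AutomaticIff

open Pool.Agent.Lib.MP_425be5_nt Pool.Agent.Lib.MP_425be5_nt_X

/-- For every irrational `ξ`, the records of `S_n(2ξ)` are `ξ`-Ostrowski automatic exactly when
the partial quotients are bounded and the sequence `m_i` is eventually periodic. -/
theorem result (ξ : ℝ) (hirr : Irrational ξ) :
    OstrowskiAutomatic ξ {r : ℕ | IsRecord (2 * ξ) r} ↔
      (∃ A : ℕ, ∀ i : ℕ, pq ξ (i + 1) ≤ A) ∧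
        ∃ P : ℕ, 0 < P ∧ ∃ n0 : ℕ, ∀ i : ℕ, n0 ≤ i → mark ξ (i + P) = mark ξ i :=
  automatic_iff hirr

end Pool.Agent.Results.MP_425be5_nt.AutomaticIff
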