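import Pool.Agent.Lib.MP_425be5_nt.Main

namespace Pool.Agent.Results.MP_425be5_nt.Records

open Pool.Agent.Lib.MP_425be5_nt

/-- For every quadratic irrational `ξ > 0` the set of records of `S_n(2ξ)` is
`ξ`-Ostrowski automatic. -/
theorem result (ξ : ℝ) (_hpos : 0 < ξ) (hirr : Irrational ξ)
    (hquad : ∃ a b c : ℤ, a ≠ 0 ∧ (a : ℝ) * ξ ^ 2 + (b : ℝ) * ξ + (c : ℝ) = 0) :
    OstrowskiAutomatic ξ {r : ℕ | IsRecord (2 * ξ) r} := by
  obtain ⟨a, b, c, ha, hq⟩ := hquad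
  exact main hirr a b c ha hq

end Pool.Agent.Results.MP_425be5_nt.Records
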